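import Pool.Agent.W79.MS.Defs

/-!
Project MS, part HALL: a dense set of vertices contains a rooted digraph with out-degrees `D`.
-/

set_option autoImplicit false

namespace Pool.Agent.W530.MS.Hall

open scoped Classical
open Pool.Agent.W79.MS

/-- edges inside `X` -/
noncomputable def EI {n : ℕ} (G : SimpleGraph (Fin n)) (X : Finset (Fin n)) : Finset (Sym2 (Fin n)) :=
  G.edgeFinset.filter (fun e => ∀ v ∈ e, v ∈ X)

theorem EI_empty {n : ℕ} (G : SimpleGraph (Fin n)) : EI G ∅ = ∅ := by
  unfold EI
  rw [Finset.filter_eq_empty_iff]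
  intro e _ h
  induction e using Sym2.ind with
  | _ a b =>
    have := h a (Sym2.mem_mk_left a b)
    simp at this

theorem hall_inj {n D : ℕ} (G : SimpleGraph (Fin n)) (S : Finset (Fin n))
    (hS : D * S.card ≤ (EI G S).card)
    (hmin : ∀ T : Finset (Fin n), T.Nonempty → D * T.card ≤ (EI G T).card → S.card ≤ T.card) :
    ∃ f : (S × Fin D) → Sym2 (Fin n), Function.Injective f ∧
      ∀ i, f i ∈ (EI G S).filter (fun e => (i.1 : Fin n) ∈ e) := by
  have h := (Finset.all_card_le_biUnion_card_iff_exists_injective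
    (fun i : S × Fin D => (EI G S).filter (fun e => (i.1 : Fin n) ∈ e))).1
  apply h
  intro s
  set T : Finset (Fin n) := s.image (fun i => (i.1 : Fin n)) with hT
  have hTS : T ⊆ S := by
    intro v hv
    rw [hT, Finset.mem_image] at hv
    obtain ⟨i, _, rfl⟩ := hv
    exact i.1.2
  have hsT : s.card ≤ D * T.card := by
    have h1 : s ⊆ (T.subtype (fun v => v ∈ S)) ×ˢ (Finset.univ : Finset (Fin D)) := by
      intro i hi
      rw [Finset.mem_product]
      refine ⟨?_, Finset.mem_univ _⟩
      rw [Finset.mem_subtype, hT, Finset.mem_image]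
      exact ⟨i, hi, rfl⟩
    calc s.card ≤ ((T.subtype (fun v => v ∈ S)) ×ˢ (Finset.univ : Finset (Fin D))).card :=
          Finset.card_le_card h1
      _ = (T.subtype (fun v => v ∈ S)).card * D := by
          rw [Finset.card_product, Finset.card_univ, Fintype.card_fin]
      _ ≤ T.card * D := by
          apply Nat.mul_le_mul_right
          rw [Finset.card_subtype]
          exact Finset.card_le_card (Finset.filter_subset _ _)
      _ = D * T.card := Nat.mul_comm _ _
  have hcov : (EI G S) \ (EI G (S \ T)) ⊆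
      s.biUnion (fun i => (EI G S).filter (fun e => (i.1 : Fin n) ∈ e)) := by
    intro e he
    rw [Finset.mem_sdiff] at he
    obtain ⟨he1, he2⟩ := he
    have he1' := he1
    unfold EI at he1' he2
    rw [Finset.mem_filter] at he1' he2
    have : ¬ ∀ v ∈ e, v ∈ S \ T := fun h => he2 ⟨he1'.1, h⟩
    push Not at this
    obtain ⟨v, hv, hvn⟩ := this
    have hvS := he1'.2 v hv
    have hvT : v ∈ T := by
      by_contra hc
      exact hvn (Finset.mem_sdiff.2 ⟨hvS, hc⟩)
    rw [hT, Finset.mem_image] at hvT
    obtain ⟨i, hi, rfl⟩ := hvT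
    rw [Finset.mem_biUnion]
    exact ⟨i, hi, Finset.mem_filter.2 ⟨he1, hv⟩⟩
  have hcard : (EI G S).card - (EI G (S \ T)).card ≤
      (s.biUnion (fun i => (EI G S).filter (fun e => (i.1 : Fin n) ∈ e))).card :=
    le_trans (Finset.le_card_sdiff _ _) (Finset.card_le_card hcov)
  rcases Finset.eq_empty_or_nonempty T with hTe | hTne
  · rw [hTe] at hsT
    simp at hsT
    rw [hsT]
    simp
  · refine le_trans hsT (le_trans ?_ hcard)
    have hsd : (S \ T).card + T.card = S.card := Finset.card_sdiff_add_card_eq_card hTS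
    have hTpos : 0 < T.card := Finset.card_pos.2 hTne
    rcases Finset.eq_empty_or_nonempty (S \ T) with hE | hE
    · rw [hE, EI_empty, Finset.card_empty, Nat.sub_zero]
      rw [hE, Finset.card_empty, Nat.zero_add] at hsd
      rw [hsd]
      exact hS
    · have hlt : (EI G (S \ T)).card < D * (S \ T).card := by
        by_contra hc
        push Not at hc
        have := hmin (S \ T) hE hc
        omega
      have : D * S.card = D * (S \ T).card + D * T.card := by
        rw [← hsd, Nat.mul_add]
      omega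

theorem main : S_HALL := by
  intro n D G S0 hS0 hS0D
  -- a minimal set
  obtain ⟨S, hSmem, hSmin⟩ := Finset.exists_min_image
    (Finset.univ.filter (fun T : Finset (Fin n) => T.Nonempty ∧ D * T.card ≤ (EI G T).card))
    (fun T => T.card) ⟨S0, Finset.mem_filter.2 ⟨Finset.mem_univ _, hS0, hS0D⟩⟩
  rw [Finset.mem_filter] at hSmem
  obtain ⟨_, hSne, hSD⟩ := hSmem
  have hmin : ∀ T : Finset (Fin n), T.Nonempty → D * T.card ≤ (EI G T).card → S.card ≤ T.card :=
    fun T h1 h2 => hSmin T (Finset.mem_filter.2 ⟨Finset.mem_univ _, h1, h2⟩)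
  obtain ⟨f, hfinj, hf⟩ := hall_inj G S hSD hmin
  have hfm : ∀ i : S × Fin D, (i.1 : Fin n) ∈ f i := fun i => (Finset.mem_filter.1 (hf i)).2
  have hfE : ∀ i : S × Fin D, f i ∈ EI G S := fun i => (Finset.mem_filter.1 (hf i)).1
  -- the other end
  set g : S × Fin D → Fin n := fun i => Sym2.Mem.other (hfm i) with hg
  have hgs : ∀ i : S × Fin D, s((i.1 : Fin n), g i) = f i := fun i => Sym2.other_spec (hfm i)
  have hgS : ∀ i : S × Fin D, g i ∈ S := by
    intro i
    have h := hfE i
    unfold EI at h
    rw [Finset.mem_filter] at h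
    apply h.2
    rw [← hgs i]
    exact Sym2.mem_mk_right _ _
  have hgA : ∀ i : S × Fin D, G.Adj i.1 (g i) := by
    intro i
    have h := hfE i
    unfold EI at h
    rw [Finset.mem_filter, ← hgs i] at h
    have h1 := h.1
    rw [SimpleGraph.mem_edgeFinset, SimpleGraph.mem_edgeSet] at h1
    exact h1
  -- the relation
  set B : Fin n → Fin n → Prop := fun x y => ∃ i : S × Fin D, (i.1 : Fin n) = x ∧ g i = y with hB
  have hBadj : ∀ x y, B x y → G.Adj x y := by
    rintro x y ⟨i, rfl, rfl⟩
    exact hgA i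
  have hBasym : ∀ x y, B x y → ¬ B y x := by
    rintro x y ⟨i, hi1, hi2⟩ ⟨j, hj1, hj2⟩
    have h1 : f i = f j := by
      rw [← hgs i, ← hgs j, hi1, hi2, hj1, hj2]
      exact Sym2.eq_swap
    have h2 := hfinj h1
    rw [h2, hj1] at hi1
    exact (hBadj x y ⟨i, by rw [h2, hj1, hi1], hi2⟩).ne hi1.symm
  obtain ⟨r, hr⟩ := hSne
  set R : Finset (Fin n) := Finset.univ.filter (fun v => Relation.ReflTransGen B r v) with hR
  have hRmem : ∀ v, v ∈ R ↔ Relation.ReflTransGen B r v := by
    intro v
    rw [hR, Finset.mem_filter]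
    simp
  have hRS : ∀ v, v ∈ R → v ∈ S := by
    intro v hv
    rw [hRmem] at hv
    rcases Relation.ReflTransGen.cases_tail hv with h | ⟨w, _, i, _, h2⟩
    · rw [h]; exact hr
    · rw [← h2]; exact hgS i
  set ε : Fin R.card ≃ R := R.equivFin.symm with hε
  let e : Fin R.card ↪ Fin n := ⟨fun i => (ε i : Fin n), fun a b h => ε.injective (Subtype.ext h)⟩
  have he : ∀ i, e i ∈ R := fun i => (ε i).2
  have hesurj : ∀ v, v ∈ R → ∃ i, e i = v := by
    intro v hv
    refine ⟨ε.symm ⟨v, hv⟩, ?_⟩
    change ((ε (ε.symm ⟨v, hv⟩) : R) : Fin n) = v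
    rw [Equiv.apply_symm_apply]
  obtain ⟨r', hr'⟩ := hesurj r ((hRmem r).2 Relation.ReflTransGen.refl)
  refine ⟨R.card, e, Finset.univ.filter (fun p => B (e p.1) (e p.2)), r', ?_, ?_, ?_, ?_⟩
  · refine ⟨?_, ?_⟩
    · intro v hv
      rw [Finset.mem_filter] at hv
      exact (hBadj _ _ hv.2).ne rfl
    · intro u v huv hvu
      rw [Finset.mem_filter] at huv hvu
      exact hBasym _ _ huv.2 hvu.2
  · intro v
    have hvS : e v ∈ S := hRS _ (he v)
    have hgR : ∀ k : Fin D, ∃ w, e w = g (⟨e v, hvS⟩, k) := by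
      intro k
      apply hesurj
      rw [hRmem]
      exact Relation.ReflTransGen.tail ((hRmem _).1 (he v)) ⟨(⟨e v, hvS⟩, k), rfl, rfl⟩
    choose w hw using hgR
    have himg : (Finset.univ.filter (fun p : Fin R.card × Fin R.card => B (e p.1) (e p.2))).filter
        (fun p => p.1 = v) = (Finset.univ : Finset (Fin D)).image (fun k => (v, w k)) := by
      ext p
      rw [Finset.mem_filter, Finset.mem_filter, Finset.mem_image]
      constructor
      · rintro ⟨⟨_, i, hi1, hi2⟩, hp⟩
        refine ⟨i.2, Finset.mem_univ _, ?_⟩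
        rw [hp] at hi1
        have hi : i = (⟨e v, hvS⟩, i.2) := by
          apply Prod.ext
          · exact Subtype.ext hi1
          · rfl
        have h3 : e (w i.2) = e p.2 := by
          rw [hw, ← hi2, ← hi]
        have h4 := e.injective h3
        rw [h4, ← hp]
      · rintro ⟨k, _, rfl⟩
        refine ⟨⟨Finset.mem_univ _, ?_⟩, rfl⟩
        refine ⟨(⟨e v, hvS⟩, k), rfl, ?_⟩
        exact (hw k).symm
    have hfin : ((Finset.univ.filter
        (fun p : Fin R.card × Fin R.card => B (e p.1) (e p.2))).filter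
        (fun p => p.1 = v)).card = D := by
      rw [himg, Finset.card_image_of_injective, Finset.card_univ, Fintype.card_fin]
      intro k l hkl
      have h1 : w k = w l := (Prod.mk.inj hkl).2
      have h2 : g (⟨e v, hvS⟩, k) = g (⟨e v, hvS⟩, l) := by
        rw [← hw, ← hw, h1]
      have h3 : f (⟨e v, hvS⟩, k) = f (⟨e v, hvS⟩, l) := by
        rw [← hgs, ← hgs, h2]
      exact (Prod.mk.inj (hfinj h3)).2
    convert hfin
  · have key : ∀ y, Relation.ReflTransGen B r y → ∀ v, e v = y →
        Relation.ReflTransGen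
          (fun x y => (x, y) ∈ (Finset.univ.filter
            (fun p : Fin R.card × Fin R.card => B (e p.1) (e p.2)))) r' v := by
      intro y hy
      induction hy with
      | refl =>
        intro v hv
        rw [← hr'] at hv
        rw [e.injective hv]
      | tail h1 h2 ih =>
        intro v hv
        obtain ⟨u, hu⟩ := hesurj _ ((hRmem _).2 h1)
        refine Relation.ReflTransGen.tail (ih u hu) ?_
        rw [Finset.mem_filter]
        refine ⟨Finset.mem_univ _, ?_⟩
        change B (e u) (e v)
        rw [hu, hv]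
        exact h2
    intro v
    exact key (e v) ((hRmem _).1 (he v)) v rfl
  · intro u v huv
    rw [und, SimpleGraph.fromRel_adj] at huv
    rw [SimpleGraph.comap_adj]
    rcases huv.2 with h | h
    · rw [Finset.mem_filter] at h
      exact hBadj _ _ h.2
    · rw [Finset.mem_filter] at h
      exact (hBadj _ _ h.2).symm

end Pool.Agent.W530.MS.Hall
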