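import Pool.Agent.W79.MS.Defs

/-!
Project MS, part LAB: labels from sparsity.
-/

set_option autoImplicit false

namespace Pool.Agent.W530.MS.Lab

open scoped Classical
open Pool.Agent.W79.MS

theorem orient {n D : ℕ} (G : SimpleGraph (Fin n))
    (h : ∀ S : Finset (Fin n), S.Nonempty → ∃ v ∈ S, (S.filter (G.Adj v)).card ≤ D)
    (S : Finset (Fin n)) :
    ∃ N : Fin n → Finset (Fin n), (∀ v, (N v).card ≤ D) ∧ (∀ v w, w ∈ N v → G.Adj v w) ∧
      ∀ u ∈ S, ∀ v ∈ S, G.Adj u v → u ∈ N v ∨ v ∈ N u := by
  induction S using Finset.strongInduction with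
  | H S ih =>
    rcases Finset.eq_empty_or_nonempty S with hS | hS
    · refine ⟨fun _ => ∅, by simp, by simp, ?_⟩
      intro u hu
      rw [hS] at hu
      simp at hu
    · obtain ⟨v0, hv0, hcard⟩ := h S hS
      obtain ⟨N, hN1, hN2, hN3⟩ := ih (S.erase v0) (Finset.erase_ssubset hv0)
      refine ⟨Function.update N v0 (S.filter (G.Adj v0)), ?_, ?_, ?_⟩
      · intro v
        by_cases hv : v = v0
        · subst hv
          rw [Function.update_self]
          exact hcard
        · rw [Function.update_of_ne hv]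
          exact hN1 v
      · intro v w hw
        by_cases hv : v = v0
        · subst hv
          rw [Function.update_self, Finset.mem_filter] at hw
          exact hw.2
        · rw [Function.update_of_ne hv] at hw
          exact hN2 v w hw
      · intro u hu v hv huv
        by_cases hu0 : u = v0
        · right
          subst hu0
          rw [Function.update_self, Finset.mem_filter]
          exact ⟨hv, huv⟩
        · by_cases hv0' : v = v0
          · left
            subst hv0'
            rw [Function.update_self, Finset.mem_filter]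
            exact ⟨hu, huv.symm⟩
          · rw [Function.update_of_ne hu0, Function.update_of_ne hv0']
            exact hN3 u (Finset.mem_erase.2 ⟨hu0, hu⟩) v (Finset.mem_erase.2 ⟨hv0', hv⟩) huv

/-- blocks: the vertex itself and then its out-neighbours, padded by the vertex itself -/
noncomputable def blk {n : ℕ} (N : Fin n → Finset (Fin n)) (v : Fin n) (i : ℕ) : Fin n :=
  if i = 0 then v else (N v).toList.getD (i - 1) v

theorem blk_zero {n : ℕ} (N : Fin n → Finset (Fin n)) (v : Fin n) : blk N v 0 = v := by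
  simp [blk]

theorem blk_iff {n D : ℕ} (N : Fin n → Finset (Fin n)) (hN : ∀ v, (N v).card ≤ D) (v w : Fin n) :
    (∃ i, i ≤ D ∧ w = blk N v i) ↔ w = v ∨ w ∈ N v := by
  constructor
  · rintro ⟨i, _, rfl⟩
    unfold blk
    by_cases h0 : i = 0
    · left; simp [h0]
    · rw [if_neg h0]
      by_cases hl : i - 1 < (N v).toList.length
      · right
        rw [List.getD_eq_getElem _ _ hl]
        rw [← Finset.mem_toList]
        exact List.getElem_mem hl
      · left
        rw [List.getD_eq_default _ _ (not_lt.1 hl)]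
  · rintro (rfl | h)
    · exact ⟨0, Nat.zero_le _, (blk_zero N w).symm⟩
    · rw [← Finset.mem_toList] at h
      obtain ⟨i, hi, hiw⟩ := List.getElem_of_mem h
      refine ⟨i + 1, ?_, ?_⟩
      · rw [Finset.length_toList] at hi
        have := hN v
        omega
      · unfold blk
        rw [if_neg (Nat.succ_ne_zero i), Nat.add_sub_cancel, List.getD_eq_getElem _ _ hi, hiw]

/-- the label -/
noncomputable def lab {n : ℕ} (D b : ℕ) (N : Fin n → Finset (Fin n)) (v : Fin n) : List Bool :=
  List.ofFn (fun j : Fin ((D + 1) * b) => ((blk N v (j.1 / b) : Fin n) : ℕ).testBit (j.1 % b))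

theorem lab_len {n : ℕ} (D b : ℕ) (N : Fin n → Finset (Fin n)) (v : Fin n) :
    (lab D b N v).length = (D + 1) * b := by
  simp [lab]

theorem lab_getD {n : ℕ} (D b : ℕ) (N : Fin n → Finset (Fin n)) (v : Fin n) (i j : ℕ)
    (hi : i ≤ D) (hj : j < b) :
    (lab D b N v).getD (i * b + j) false = ((blk N v i : Fin n) : ℕ).testBit j := by
  have hb : 0 < b := by omega
  have hlt : i * b + j < (D + 1) * b := by
    have : (i + 1) * b ≤ (D + 1) * b := Nat.mul_le_mul_right b (by omega)
    have h2 : (i + 1) * b = i * b + b := by ring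
    omega
  rw [List.getD_eq_getElem _ _ (by rw [lab_len]; exact hlt)]
  unfold lab
  rw [List.getElem_ofFn]
  have h1 : (i * b + j) / b = i := by
    rw [Nat.add_comm, Nat.add_mul_div_right _ _ hb, Nat.div_eq_of_lt hj, Nat.zero_add]
  have h2 : (i * b + j) % b = j := by
    rw [Nat.add_comm, Nat.add_mul_mod_self_right, Nat.mod_eq_of_lt hj]
  simp only [h1, h2]

/-- the code of a vertex determines it -/
theorem eq_of_bits {a c b : ℕ} (ha : a < 2 ^ b) (hc : c < 2 ^ b)
    (h : ∀ j, j < b → a.testBit j = c.testBit j) : a = c := by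
  apply Nat.eq_of_testBit_eq
  intro j
  by_cases hj : j < b
  · exact h j hj
  · have h2 : 2 ^ b ≤ 2 ^ j := Nat.pow_le_pow_right (by norm_num) (by omega)
    rw [Nat.testBit_lt_two_pow (lt_of_lt_of_le ha h2), Nat.testBit_lt_two_pow (lt_of_lt_of_le hc h2)]

/-- one direction of the decoder -/
def hit (D : ℕ) (x y : List Bool) : Prop :=
  ∃ i, i ≤ D ∧ ∀ j, j < x.length / (D + 1) →
    x.getD j false = y.getD (i * (x.length / (D + 1)) + j) false

theorem hit_iff {n D b : ℕ} (hnb : n ≤ 2 ^ b) (N : Fin n → Finset (Fin n))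
    (hN : ∀ v, (N v).card ≤ D) (u v : Fin n) :
    hit D (lab D b N u) (lab D b N v) ↔ u = v ∨ u ∈ N v := by
  rw [← blk_iff N hN]
  unfold hit
  rw [lab_len, Nat.mul_div_cancel_left b (Nat.succ_pos D)]
  constructor
  · rintro ⟨i, hi, h⟩
    refine ⟨i, hi, ?_⟩
    apply Fin.ext
    apply eq_of_bits (lt_of_lt_of_le u.2 hnb) (lt_of_lt_of_le (blk N v i).2 hnb)
    intro j hj
    have h1 := h j hj
    rw [lab_getD D b N v i j hi hj] at h1
    have h2 := lab_getD D b N u 0 j (Nat.zero_le _) hj
    rw [Nat.zero_mul, Nat.zero_add, blk_zero] at h2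
    rw [← h2, h1]
  · rintro ⟨i, hi, h⟩
    refine ⟨i, hi, ?_⟩
    intro j hj
    rw [lab_getD D b N v i j hi hj, ← h]
    have h2 := lab_getD D b N u 0 j (Nat.zero_le _) hj
    rw [Nat.zero_mul, Nat.zero_add, blk_zero] at h2
    exact h2

theorem main : S_LAB := by
  intro D
  refine ⟨D + 1, fun x y => decide (hit D x y ∨ hit D y x), ?_⟩
  intro n G h
  obtain ⟨N, hN1, hN2, hN3⟩ := orient G h Finset.univ
  have hnb : n ≤ 2 ^ (Nat.log 2 n + 1) := (Nat.lt_pow_succ_log_self (by norm_num) n).le
  refine ⟨lab D (Nat.log 2 n + 1) N, ?_, ?_, ?_⟩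
  · intro u v huv
    apply Fin.ext
    apply eq_of_bits (lt_of_lt_of_le u.2 hnb) (lt_of_lt_of_le v.2 hnb)
    intro j hj
    have h1 := lab_getD D (Nat.log 2 n + 1) N u 0 j (Nat.zero_le _) hj
    have h2 := lab_getD D (Nat.log 2 n + 1) N v 0 j (Nat.zero_le _) hj
    rw [blk_zero] at h1 h2
    rw [← h1, ← h2, huv]
  · intro v
    exact lab_len _ _ _ _
  · intro u v huv
    rw [decide_eq_true_iff, hit_iff hnb N hN1, hit_iff hnb N hN1]
    constructor
    · intro hadj
      rcases hN3 u (Finset.mem_univ _) v (Finset.mem_univ _) hadj with h1 | h1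
      · exact Or.inl (Or.inr h1)
      · exact Or.inr (Or.inr h1)
    · rintro ((h1 | h1) | (h1 | h1))
      · exact absurd h1 huv
      · exact (hN2 _ _ h1).symm
      · exact absurd h1.symm huv
      · exact hN2 _ _ h1

end Pool.Agent.W530.MS.Lab
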